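import Pool.Agent.H850R2.Sq.Field

/-!
# Popular differences for squares in `F_2^n x F_2^n`: the exponent is at least 5

Every valid exponent for squares is at least `5`, so the infimum `C` of the valid exponents
satisfies `C ≥ 5` (the bound `C ≥ 4` comes from corners).
-/

namespace Pool.Agent.Results.MP_22a11a_co.SquaresFive

open Pool.H850Sq

/-- `Q_d(A)`: the number of squares with difference `d` in `A`. -/
def squareCount (n : ℕ) (A : Finset ((Fin n → ZMod 2) × (Fin n → ZMod 2)))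
    (d : Fin n → ZMod 2) : ℕ :=
  (Finset.univ.filter fun p : (Fin n → ZMod 2) × (Fin n → ZMod 2) =>
    (p.1, p.2) ∈ A ∧ (p.1, p.2 + d) ∈ A ∧ (p.1 + d, p.2) ∈ A ∧ (p.1 + d, p.2 + d) ∈ A).card

/-- `c` is a valid exponent for squares. -/
def ValidExponent (c : ℝ) : Prop :=
  ∃ K : ℝ, 0 < K ∧ ∀ α : ℝ, 0 < α → α < 1 → ∃ n₀ : ℕ, ∀ n : ℕ, n₀ ≤ n → 1 ≤ n →
    ∀ A : Finset ((Fin n → ZMod 2) × (Fin n → ZMod 2)),
      α * ((2 : ℝ) ^ n) ^ 2 ≤ (A.card : ℝ) →
        ∃ d : Fin n → ZMod 2, d ≠ 0 ∧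
          K * α ^ c * ((2 : ℝ) ^ n) ^ 2 ≤ (squareCount n A d : ℝ)

/-- `C`: the infimum of all valid exponents for squares, `⊤` if there is none. -/
noncomputable def squareExponent : EReal :=
  sInf ((fun c : ℝ => (c : EReal)) '' {c | ValidExponent c})

lemma count_transfer {F : Type*} [Field F] [Fintype F] [Algebra (ZMod 2) F] (n : ℕ)
    (φ : F ≃ₗ[ZMod 2] (Fin n → ZMod 2)) (A : Finset (F × F)) (d : Fin n → ZMod 2) :
    squareCount n (A.map (Equiv.prodCongr φ.toEquiv φ.toEquiv).toEmbedding) d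
      = QF A (φ.symm d) := by
  classical
  unfold squareCount QF
  symm
  apply Finset.card_equiv (Equiv.prodCongr φ.toEquiv φ.toEquiv)
  rintro ⟨x, y⟩
  have hmem : ∀ a b : F, (φ a, φ b) ∈ A.map (Equiv.prodCongr φ.toEquiv φ.toEquiv).toEmbedding
      ↔ (a, b) ∈ A := by
    intro a b
    rw [Finset.mem_map]
    constructor
    · rintro ⟨⟨a', b'⟩, h, h'⟩
      simp only [Equiv.toEmbedding_apply, Equiv.prodCongr_apply, Prod.map_apply, Prod.mk.injEq]
        at h'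
      have h1 : a' = a := φ.injective h'.1
      have h2 : b' = b := φ.injective h'.2
      rw [h1, h2] at h
      exact h
    · intro h
      exact ⟨(a, b), h, rfl⟩
  have hd : φ (φ.symm d) = d := φ.apply_symm_apply d
  have hx : φ x + d = φ (x + φ.symm d) := by rw [map_add, hd]
  have hy : φ y + d = φ (y + φ.symm d) := by rw [map_add, hd]
  simp only [Finset.mem_filter, Finset.mem_univ, true_and]
  have e1 : (Equiv.prodCongr φ.toEquiv φ.toEquiv) (x, y) = (φ x, φ y) := rfl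
  rw [e1]
  simp only [hx, hy, hmem]

lemma key (c K : ℝ)
    (h : ∀ α : ℝ, 0 < α → α < 1 → ∃ n₀ : ℕ, ∀ n : ℕ, n₀ ≤ n → 1 ≤ n →
    ∀ A : Finset ((Fin n → ZMod 2) × (Fin n → ZMod 2)),
      α * ((2 : ℝ) ^ n) ^ 2 ≤ (A.card : ℝ) →
        ∃ d : Fin n → ZMod 2, d ≠ 0 ∧
          K * α ^ c * ((2 : ℝ) ^ n) ^ 2 ≤ (squareCount n A d : ℝ))
    (k : ℕ) (hk : Odd k) :
    2 * K * (1 / 2 : ℝ) ^ c * (2 ^ (5 - c) : ℝ) ^ k ≤ 3 := by
  classical
  have hk0 : 0 < k := hk.pos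
  set α : ℝ := (1 / 2 : ℝ) ^ (k + 1) with hα
  have hα0 : 0 < α := by positivity
  have hα1 : α < 1 := pow_lt_one₀ (by norm_num) (by norm_num) (by omega)
  obtain ⟨n₀, hn₀⟩ := h α hα0 hα1
  set m := n₀ + (16 * k + 4) with hm
  set n := 2 * k * m with hn
  have hmn : m ≤ n := by
    rw [hn]
    have : 1 ≤ 2 * k := by omega
    nlinarith
  have hn1 : n₀ ≤ n := by omega
  have hn2 : 16 * k + 4 ≤ n := by omega
  have hn0 : n ≠ 0 := by omega
  have hne : Even n := ⟨k * m, by rw [hn]; ring⟩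
  have hkn : k ∣ n := ⟨2 * m, by rw [hn]; ring⟩
  have hfin : Module.finrank (ZMod 2) (GaloisField 2 n) = n := GaloisField.finrank 2 hn0
  let F := GaloisField 2 n
  letI : Fintype (GaloisField 2 n) := Fintype.ofFinite _
  have hmF : Module.Finite (ZMod 2) (GaloisField 2 n) := Module.Finite.of_finite
  have hF : Fintype.card (GaloisField 2 n) = 2 ^ n := by
    have := Module.card_eq_pow_finrank (K := ZMod 2) (V := GaloisField 2 n)
    rw [hfin] at this
    simpa using this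
  obtain ⟨cc, hcc⟩ := exists_good (GaloisField 2 n) k n hk hne hkn hfin
  have hN : 2 ^ (16 * k + 4) ≤ Fintype.card (GaloisField 2 n) := by
    rw [hF]; exact Nat.pow_le_pow_right (by norm_num) hn2
  have hA := card_SetA cc hcc hN
  have hQ := QF_SetA cc hcc hN
  let φ : GaloisField 2 n ≃ₗ[ZMod 2] (Fin n → ZMod 2) :=
    LinearEquiv.ofFinrankEq _ _ (by rw [hfin]; simp)
  set A' := (SetA cc).map (Equiv.prodCongr φ.toEquiv φ.toEquiv).toEmbedding with hA'
  have hcardA : (A'.card : ℝ) = ((SetA cc).card : ℝ) := by rw [hA', Finset.card_map]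
  have hFR : ((Fintype.card (GaloisField 2 n) : ℤ) : ℝ) = (2 : ℝ) ^ n := by
    rw [hF]; push_cast; rfl
  have hAR : ((2 : ℝ) ^ n) ^ 2 ≤ 2 ^ (k + 1) * ((SetA cc).card : ℝ) := by
    have := (Int.cast_le (R := ℝ)).mpr hA
    rw [Int.cast_pow, hFR] at this
    push_cast at this
    exact this
  have hlow : α * ((2 : ℝ) ^ n) ^ 2 ≤ (A'.card : ℝ) := by
    rw [hcardA]
    have h1 : α * (2 : ℝ) ^ (k + 1) = 1 := by
      rw [hα, ← mul_pow]; norm_num
    calc α * ((2 : ℝ) ^ n) ^ 2 ≤ α * (2 ^ (k + 1) * ((SetA cc).card : ℝ)) :=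
          mul_le_mul_of_nonneg_left hAR hα0.le
      _ = (α * (2 : ℝ) ^ (k + 1)) * ((SetA cc).card : ℝ) := by ring
      _ = ((SetA cc).card : ℝ) := by rw [h1, one_mul]
  obtain ⟨d, hd, hd2⟩ := hn₀ n hn1 (by omega) A' hlow
  have hds : φ.symm d ≠ 0 := by
    intro h0
    exact hd ((LinearEquiv.map_eq_zero_iff _).mp h0)
  have hq := hQ (φ.symm d) hds
  rw [← count_transfer n φ (SetA cc) d, ← hA'] at hq
  have hqR : 2 * 2 ^ (5 * k) * (squareCount n A' d : ℝ) ≤ 3 * ((2 : ℝ) ^ n) ^ 2 := by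
    have := (Int.cast_le (R := ℝ)).mpr hq
    rw [Int.cast_mul, Int.cast_mul 3, Int.cast_pow, hFR] at this
    push_cast at this
    exact this
  have hNp : (0 : ℝ) < ((2 : ℝ) ^ n) ^ 2 := by positivity
  have h5 : 2 * 2 ^ (5 * k) * (K * α ^ c) * ((2 : ℝ) ^ n) ^ 2 ≤ 3 * ((2 : ℝ) ^ n) ^ 2 := by
    calc 2 * 2 ^ (5 * k) * (K * α ^ c) * ((2 : ℝ) ^ n) ^ 2
        = 2 * 2 ^ (5 * k) * (K * α ^ c * ((2 : ℝ) ^ n) ^ 2) := by ring
      _ ≤ 2 * 2 ^ (5 * k) * (squareCount n A' d : ℝ) :=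
          mul_le_mul_of_nonneg_left hd2 (by positivity)
      _ ≤ _ := hqR
  have h6 : 2 * 2 ^ (5 * k) * (K * α ^ c) ≤ 3 := le_of_mul_le_mul_right h5 hNp
  have h7 : α ^ c = (1 / 2 : ℝ) ^ c * ((1 / 2 : ℝ) ^ c) ^ k := by
    rw [hα, ← Real.rpow_natCast, ← Real.rpow_mul (by norm_num), ← Real.rpow_natCast,
      ← Real.rpow_mul (by norm_num), ← Real.rpow_add (by norm_num)]
    congr 1
    push_cast
    ring
  have h8 : (2 : ℝ) ^ (5 * k) * ((1 / 2 : ℝ) ^ c) ^ k = ((2 : ℝ) ^ (5 - c)) ^ k := by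
    rw [pow_mul, ← mul_pow]
    congr 1
    rw [Real.rpow_sub (by norm_num), one_div, Real.inv_rpow (by norm_num), div_eq_mul_inv]
    norm_num
  calc 2 * K * (1 / 2 : ℝ) ^ c * (2 ^ (5 - c) : ℝ) ^ k
      = 2 * 2 ^ (5 * k) * (K * α ^ c) := by rw [h7, ← h8]; ring
    _ ≤ 3 := h6

lemma five_le (c : ℝ) (hc : ValidExponent c) : 5 ≤ c := by
  obtain ⟨K, hK, h⟩ := hc
  by_contra hlt
  push Not at hlt
  have h1 : (1 : ℝ) < 2 ^ (5 - c) := Real.one_lt_rpow (by norm_num) (by linarith)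
  set u : ℝ := 2 * K * (1 / 2 : ℝ) ^ c with hu
  have hu0 : 0 < u := by
    rw [hu]
    have : (0 : ℝ) < (1 / 2 : ℝ) ^ c := Real.rpow_pos_of_pos (by norm_num) _
    positivity
  have ht := tendsto_pow_atTop_atTop_of_one_lt h1
  obtain ⟨k₀, hk₀⟩ := (ht.eventually (Filter.eventually_gt_atTop (3 / u))).exists_forall_of_atTop
  have h2 := hk₀ (2 * k₀ + 1) (by omega)
  have h3 := key c K h (2 * k₀ + 1) ⟨k₀, rfl⟩
  rw [← hu] at h3
  rw [div_lt_iff₀ hu0] at h2
  linarith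

/-- The optimal exponent `C` for popular differences for squares in `F_2^n x F_2^n`
is at least `5`. -/
theorem result : (5 : EReal) ≤ squareExponent := by
  unfold squareExponent
  apply le_sInf
  rintro _ ⟨c, hc, rfl⟩
  have h := five_le c hc
  have h2 : ((5 : ℝ) : EReal) ≤ (c : EReal) := EReal.coe_le_coe_iff.mpr h
  exact h2

end Pool.Agent.Results.MP_22a11a_co.SquaresFive
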